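import Mathlib

set_option autoImplicit false

open Set Filter Topology

namespace Pool.Agent.Work.MP_d8b5e2_gt

universe u v w

/-- The Delta property, as in the problem file. -/
def IsDelta (X : Type u) [TopologicalSpace X] : Prop :=
  ∀ D : ℕ → Set X, Antitone D → (⋂ n, D n) = ∅ →
    ∃ V : ℕ → Set X, Antitone V ∧ (∀ n, IsOpen (V n)) ∧ (∀ n, D n ⊆ V n) ∧ (⋂ n, V n) = ∅

theorem IsDelta.closed_cover {X : Type u} [TopologicalSpace X] (hX : IsDelta X) (g : X → ℕ) :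
    ∃ C : ℕ → Set X, Monotone C ∧ (∀ m, IsClosed (C m)) ∧ (∀ x, ∃ m, x ∈ C m) ∧
      ∀ m, ∀ x ∈ C m, g x ≤ m := by
  obtain ⟨V, hVa, hVo, hDV, hV⟩ := hX (fun m => {x | m < g x})
    (fun m m' h x hx => lt_of_le_of_lt h hx)
    (by
      refine eq_empty_iff_forall_notMem.2 fun x hx => ?_
      exact lt_irrefl (g x) (mem_iInter.1 hx (g x)))
  refine ⟨fun m => (V m)ᶜ, fun m m' h => compl_subset_compl.2 (hVa h),
    fun m => (hVo m).isClosed_compl, fun x => ?_, fun m x hx => ?_⟩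
  · by_contra h
    push Not at h
    have : x ∈ ⋂ n, V n := mem_iInter.2 fun n => by simpa using h n
    rw [hV] at this
    exact this
  · by_contra h
    exact hx (hDV m (not_le.1 h))

theorem IsDelta.compact_cover {X : Type u} [TopologicalSpace X] [SigmaCompactSpace X]
    (hX : IsDelta X) (g : X → ℕ) :
    ∃ C : ℕ → Set X, Monotone C ∧ (∀ m, IsCompact (C m)) ∧ (∀ x, ∃ m, x ∈ C m) ∧
      ∀ m, ∀ x ∈ C m, g x ≤ m := by
  obtain ⟨C, hCm, hCc, hCx, hCg⟩ := hX.closed_cover g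
  refine ⟨fun m => compactCovering X m ∩ C m,
    fun m m' h => inter_subset_inter (compactCovering_subset X h) (hCm h),
    fun m => (isCompact_compactCovering X m).inter_right (hCc m), fun x => ?_,
    fun m x hx => hCg m x hx.2⟩
  obtain ⟨m, hm⟩ := hCx x
  obtain ⟨m', hm'⟩ := exists_mem_compactCovering x
  exact ⟨max m m', compactCovering_subset X (le_max_right _ _) hm', hCm (le_max_left _ _) hm⟩

theorem isDelta_of_cover {Y : Type v} [TopologicalSpace Y]
    (h : ∀ g : Y → ℕ, ∃ W : ℕ → ℕ → ℕ → Set Y, (∀ k n m, IsClosed (W k n m)) ∧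
      (∀ y, ∃ k n m, y ∈ W k n m) ∧ ∀ k n m, ∀ y ∈ W k n m, g y ≤ m) : IsDelta Y := by
  classical
  intro D hD hD0
  have hex : ∀ y, ∃ n, y ∉ D n := fun y => by
    by_contra hy
    push Not at hy
    have : y ∈ ⋂ n, D n := mem_iInter.2 hy
    rw [hD0] at this
    exact this
  obtain ⟨W, hWc, hWy, hWg⟩ := h fun y => Nat.find (hex y)
  refine ⟨fun N => (⋃ k ∈ Iic N, ⋃ n ∈ Iic N, ⋃ m ∈ Iic N, W k n m)ᶜ, ?_, ?_, ?_, ?_⟩
  · intro N N' hN
    refine compl_subset_compl.2 fun y hy => ?_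
    simp only [mem_iUnion, mem_Iic] at hy ⊢
    obtain ⟨k, hk, n, hn, m, hm, hy⟩ := hy
    exact ⟨k, hk.trans hN, n, hn.trans hN, m, hm.trans hN, hy⟩
  · intro N
    rw [isOpen_compl_iff]
    refine (finite_Iic N).isClosed_biUnion fun k _ => ?_
    refine (finite_Iic N).isClosed_biUnion fun n _ => ?_
    exact (finite_Iic N).isClosed_biUnion fun m _ => hWc k n m
  · intro N y hy hy'
    simp only [mem_iUnion, mem_Iic] at hy'
    obtain ⟨k, -, n, -, m, hm, hy'⟩ := hy'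
    exact Nat.find_spec (hex y) (hD ((hWg k n m y hy').trans hm) hy)
  · refine eq_empty_iff_forall_notMem.2 fun y hy => ?_
    obtain ⟨k, n, m, hy'⟩ := hWy y
    refine mem_iInter.1 hy (max k (max n m)) ?_
    simp only [mem_iUnion, mem_Iic]
    exact ⟨k, le_max_left _ _, n, (le_max_left _ _).trans (le_max_right _ _), m,
      (le_max_right _ _).trans (le_max_right _ _), hy'⟩

/-- Points of Y controlled by k points of C at scale e. -/
def Ctrl {X : Type u} {Y : Type v} {ι : Type w} (a : ι → X → ℝ) (b : ι → Y → ℝ) (k : ℕ) (e : ℝ)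
    (C : Set X) : Set Y :=
  {y | ∃ x : Fin k → X, (∀ l, x l ∈ C) ∧ ∀ i, (∀ l, |a i (x l)| < e) → |b i y| ≤ 1}

theorem core {X : Type u} {Y : Type v} {ι : Type w} [TopologicalSpace Y] (Good : Set X → Prop)
    (hX : ∀ g : X → ℕ, ∃ C : ℕ → Set X, Monotone C ∧ (∀ m, Good (C m)) ∧ (∀ x, ∃ m, x ∈ C m) ∧
      ∀ m, ∀ x ∈ C m, g x ≤ m)
    (a : ι → X → ℝ) (b : ι → Y → ℝ)
    (hcov : ∀ y, ∃ F : Finset X, ∃ e > (0 : ℝ), ∀ i, (∀ x ∈ F, |a i x| < e) → |b i y| ≤ 1)
    (hsupp : ∀ e > (0 : ℝ), ∃ S : X → Finset Y, ∀ (F : Finset X) (y : Y), (∀ x ∈ F, y ∉ S x) →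
      ∃ i, (∀ x ∈ F, |a i x| < e) ∧ 1 < |b i y|)
    (hcl : ∀ k, ∀ e > (0 : ℝ), ∀ C, Good C → IsClosed (Ctrl a b k e C)) : IsDelta Y := by
  classical
  refine isDelta_of_cover fun g => ?_
  have hpos : ∀ n : ℕ, (1 : ℝ) / (n + 1) > 0 := fun n => by positivity
  choose S hS using fun n : ℕ => hsupp (1 / (n + 1)) (hpos n)
  choose C hCm hCg hCx hCle using fun n : ℕ => hX fun x => (S n x).sup g
  refine ⟨fun k n m => Ctrl a b k (1 / (n + 1)) (C n m),
    fun k n m => hcl k _ (hpos n) _ (hCg n m), fun y => ?_, fun k n m y hy => ?_⟩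
  · obtain ⟨F, e, he, hF⟩ := hcov y
    obtain ⟨n, hn⟩ := exists_nat_one_div_lt he
    choose m hm using hCx n
    refine ⟨F.card, n, F.sup m, fun l => (F.equivFin.symm l : X), fun l => ?_, fun i hi => ?_⟩
    · exact hCm n (Finset.le_sup (f := m) (F.equivFin.symm l).2) (hm _)
    · refine hF i fun x hx => lt_trans ?_ hn
      simpa using hi (F.equivFin ⟨x, hx⟩)
  · obtain ⟨x, hxC, hx⟩ := hy
    by_contra hg
    have hno : ∀ z ∈ Finset.univ.image x, y ∉ S n z := by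
      intro z hz hy
      obtain ⟨l, -, rfl⟩ := Finset.mem_image.1 hz
      exact hg ((Finset.le_sup (f := g) hy).trans (hCle n m _ (hxC l)))
    obtain ⟨i, hi, hb⟩ := hS n _ y hno
    exact absurd (hx i fun l => hi _ (Finset.mem_image_of_mem x (Finset.mem_univ l))) (not_le.2 hb)

theorem isClosed_ctrl_of_isCompact {X : Type u} {Y : Type v} {ι : Type w} [TopologicalSpace X]
    [TopologicalSpace Y] (a : ι → X → ℝ) (b : ι → Y → ℝ) (ha : ∀ i, Continuous (a i))
    (hb : ∀ i, Continuous (b i)) (k : ℕ) (e : ℝ) (C : Set X) (hC : IsCompact C) :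
    IsClosed (Ctrl a b k e C) := by
  rw [isClosed_iff_ultrafilter]
  intro y U hU hW
  have hch : ∀ y' : Y, y' ∈ Ctrl a b k e C → ∃ x : Fin k → X, (∀ l, x l ∈ C) ∧
      ∀ i, (∀ l, |a i (x l)| < e) → |b i y'| ≤ 1 := fun y' h => h
  obtain ⟨y₀, hy₀⟩ := U.nonempty_of_mem hW
  obtain ⟨x₀, -, -⟩ := hch y₀ hy₀
  have : Nonempty (Fin k → X) := ⟨x₀⟩
  choose! x hxC hx using hch
  have hlim : ∀ l, ∃ p ∈ C, Tendsto (fun y' => x y' l) U (𝓝 p) := by
    intro l
    obtain ⟨p, hp, hle⟩ := hC.ultrafilter_le_nhds (U.map fun y' => x y' l) (by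
      rw [le_principal_iff, Ultrafilter.coe_map, mem_map]
      exact mem_of_superset hW fun y' hy' => hxC y' hy' l)
    exact ⟨p, hp, hle⟩
  choose p hpC hp using hlim
  refine ⟨p, hpC, fun i hi => ?_⟩
  have h1 : ∀ᶠ y' in (U : Filter Y), ∀ l, |a i (x y' l)| < e := by
    rw [eventually_all]
    intro l
    exact (((ha i).tendsto (p l)).comp (hp l)).abs.eventually (gt_mem_nhds (hi l))
  have h2 : ∀ᶠ y' in (U : Filter Y), |b i y'| ≤ 1 := by
    filter_upwards [h1, hW] with y' h h' using hx y' h' i h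
  exact le_of_tendsto (((hb i).tendsto y).mono_left hU).abs h2

/-- Basic neighbourhoods in the product topology. -/
theorem exists_basic {X : Type u} {u : X → ℝ} {s : Set (X → ℝ)} (hs : s ∈ 𝓝 u) :
    ∃ F : Finset X, ∃ e > (0 : ℝ), ∀ v : X → ℝ, (∀ x ∈ F, |v x - u x| < e) → v ∈ s := by
  rw [nhds_pi, Filter.mem_pi] at hs
  obtain ⟨I, hI, t, ht, hts⟩ := hs
  have h : ∀ᶠ e in 𝓝[>] (0 : ℝ), ∀ x ∈ I, Metric.ball (u x) e ⊆ t x := by
    rw [eventually_all_finite hI]
    intro x _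
    obtain ⟨d, hd, hball⟩ := Metric.mem_nhds_iff.1 (ht x)
    filter_upwards [Ioo_mem_nhdsGT hd] with e he
    exact (Metric.ball_subset_ball he.2.le).trans hball
  obtain ⟨e, he, he0⟩ := (h.and self_mem_nhdsWithin).exists
  refine ⟨hI.toFinset, e, he0, fun v hv => hts fun x hx => he x hx ?_⟩
  rw [Metric.mem_ball, Real.dist_eq]
  exact hv x (hI.mem_toFinset.2 hx)

theorem exists_basic_sub {X : Type u} {p : (X → ℝ) → Prop} {u : Subtype p} {s : Set (Subtype p)}
    (hs : s ∈ 𝓝 u) :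
    ∃ F : Finset X, ∃ e > (0 : ℝ), ∀ v : Subtype p, (∀ x ∈ F, |v.1 x - u.1 x| < e) → v ∈ s := by
  rw [nhds_subtype, mem_comap] at hs
  obtain ⟨t, ht, hts⟩ := hs
  obtain ⟨F, e, he, hF⟩ := exists_basic ht
  exact ⟨F, e, he, fun v hv => hts (hF v.1 hv)⟩

theorem basic_mem_nhds {X : Type u} (u : X → ℝ) (F : Finset X) {e : ℝ} (he : 0 < e) :
    {v : X → ℝ | ∀ x ∈ F, |v x - u x| < e} ∈ 𝓝 u := by
  have : ∀ᶠ v in 𝓝 u, ∀ x ∈ F, |v x - u x| < e := by
    rw [eventually_all_finset]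
    intro x _
    have hc : Continuous fun v : X → ℝ => |v x - u x| := by fun_prop
    exact (hc.tendsto u).eventually (gt_mem_nhds (by simpa using he))
  exact this

/-- A bump function on a Tychonoff space: zero on a finite set and two at another point. -/
theorem exists_bump {Y : Type v} [TopologicalSpace Y] [T35Space Y] (S : Finset Y) {y : Y}
    (hy : y ∉ S) : ∃ h : Y → ℝ, Continuous h ∧ h y = 2 ∧ ∀ z ∈ S, h z = 0 := by
  obtain ⟨f, hf, hfy, hfS⟩ := CompletelyRegularSpace.completely_regular y (S : Set Y)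
    S.finite_toSet.isClosed (by simpa using hy)
  refine ⟨fun z => 2 * (1 - (f z : ℝ)), by fun_prop, by simp [hfy], fun z hz => ?_⟩
  have := hfS (show z ∈ (S : Set Y) from hz)
  simp only [Pi.one_apply] at this
  simp [this]

theorem exists_pos_le_finset {X : Type u} (F : Finset X) (d : X → ℝ) (hd : ∀ x, 0 < d x) :
    ∃ e > (0 : ℝ), e ≤ 1 ∧ ∀ x ∈ F, e ≤ d x := by
  classical
  induction F using Finset.induction_on with
  | empty => exact ⟨1, one_pos, le_rfl, by simp⟩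
  | insert x F _ ih =>
    obtain ⟨e, he, he1, hF⟩ := ih
    refine ⟨min e (d x), lt_min he (hd x), (min_le_left _ _).trans he1, fun z hz => ?_⟩
    rcases Finset.mem_insert.1 hz with rfl | hz
    · exact min_le_right _ _
    · exact (min_le_left _ _).trans (hF z hz)

end Pool.Agent.Work.MP_d8b5e2_gt
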