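import Pool.Agent.Work.MP_d8b5e2_gt.Core

set_option autoImplicit false

open Set Filter Topology

namespace Pool.Agent.Work.MP_d8b5e2_gt

universe u v

theorem exists_basic_sub_sub {Y : Type v} {p : (Y → ℝ) → Prop} {E : Set (Subtype p)} {f₀ : E}
    {s : Set E} (hs : s ∈ 𝓝 f₀) :
    ∃ S : Finset Y, ∃ d > (0 : ℝ), ∀ f : E, (∀ z ∈ S, |f.1.1 z - f₀.1.1 z| < d) → f ∈ s := by
  rw [nhds_subtype, mem_comap] at hs
  obtain ⟨t, ht, hts⟩ := hs
  obtain ⟨F, e, he, hF⟩ := exists_basic_sub ht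
  exact ⟨F, e, he, fun v hv => hts (hF v.1 hv)⟩

/-- One-point supports from the continuity of j at the base point. -/
theorem exists_supports {X : Type u} {Y : Type v} [TopologicalSpace X]
    [TopologicalSpace Y] [T35Space Y]
    (E : Set {f : Y → ℝ // Continuous f}) (hE : Dense E)
    (j : E → {φ : X → ℝ // Continuous φ}) (f₀ : E) (hj : ContinuousAt j f₀) (e : ℝ)
    (he : 0 < e) :
    ∃ S : X → Finset Y, ∀ (F : Finset X) (y : Y), (∀ x ∈ F, y ∉ S x) →
      ∃ f : E, (∀ x ∈ F, |(j f).1 x - (j f₀).1 x| < e) ∧ 1 < |f.1.1 y - f₀.1.1 y| := by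
  classical
  have hx : ∀ x : X, ∃ S : Finset Y, ∃ d > (0 : ℝ), ∀ f : E,
      (∀ z ∈ S, |f.1.1 z - f₀.1.1 z| < d) → |(j f).1 x - (j f₀).1 x| < e := by
    intro x
    have hc : Continuous fun φ : {φ : X → ℝ // Continuous φ} => |φ.1 x - (j f₀).1 x| := by
      have : Continuous fun φ : {φ : X → ℝ // Continuous φ} => φ.1 x :=
        (continuous_apply x).comp continuous_subtype_val
      exact (this.sub continuous_const).abs
    have h1 : {φ : {φ : X → ℝ // Continuous φ} | |φ.1 x - (j f₀).1 x| < e} ∈ 𝓝 (j f₀) :=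
      (hc.tendsto (j f₀)).eventually (gt_mem_nhds (by simpa using he))
    exact exists_basic_sub_sub (hj.preimage_mem_nhds h1)
  choose S d hd hS using hx
  refine ⟨S, fun F y hy => ?_⟩
  obtain ⟨h, hh, hhy, hhS⟩ := exists_bump (F.biUnion S) (y := y) (by simpa using hy)
  obtain ⟨d', hd', hd1, hdF⟩ := exists_pos_le_finset F d hd
  let t : {f : Y → ℝ // Continuous f} := ⟨fun z => f₀.1.1 z + h z, f₀.1.2.add hh⟩
  have hN : {f : {f : Y → ℝ // Continuous f} |
      ∀ z ∈ insert y (F.biUnion S), |f.1 z - t.1 z| < d'} ∈ 𝓝 t :=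
    continuous_subtype_val.continuousAt.preimage_mem_nhds
      (basic_mem_nhds t.1 (insert y (F.biUnion S)) hd')
  obtain ⟨f, hf, hfE⟩ := hE.inter_nhds_nonempty hN
  refine ⟨⟨f, hf⟩, fun x hx => hS x _ fun z hz => ?_, ?_⟩
  · have hz' : z ∈ F.biUnion S := Finset.mem_biUnion.2 ⟨x, hx, hz⟩
    have := hfE z (Finset.mem_insert_of_mem hz')
    simp only [t, hhS z hz', add_zero] at this
    exact this.trans_le (hdF x hx)
  · have := hfE y (Finset.mem_insert_self _ _)
    simp only [t, hhy] at this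
    have h3 := (abs_lt.1 (this.trans_le hd1)).1
    exact lt_of_lt_of_le (by linarith) (le_abs_self _)

/-- Local form: only the behaviour of j at one base point is used. -/
theorem isDelta_of_local_embedding {X : Type u} {Y : Type v} [TopologicalSpace X]
    [SigmaCompactSpace X] [TopologicalSpace Y] [T35Space Y]
    (E : Set {f : Y → ℝ // Continuous f}) (hE : Dense E)
    (j : E → {φ : X → ℝ // Continuous φ}) (f₀ : E) (hj : 𝓝 f₀ = comap j (𝓝 (j f₀)))
    (hX : IsDelta X) : IsDelta Y := by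
  refine core IsCompact hX.compact_cover (fun (f : E) x => (j f).1 x - (j f₀).1 x)
    (fun (f : E) y => f.1.1 y - f₀.1.1 y) (fun y => ?_)
    (fun e he => exists_supports E hE j f₀ (tendsto_iff_comap.2 hj.le) e he)
    (fun k e _ C hC => isClosed_ctrl_of_isCompact _ _ (fun f => (j f).2.sub (j f₀).2)
      (fun f => f.1.2.sub f₀.1.2) k e C hC)
  have hc : Continuous fun f : E => |f.1.1 y - f₀.1.1 y| := by
    have : Continuous fun f : E => f.1.1 y :=
      (continuous_apply y).comp (continuous_subtype_val.comp continuous_subtype_val)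
    fun_prop
  have h1 : {f : E | |f.1.1 y - f₀.1.1 y| < 1} ∈ 𝓝 f₀ :=
    (hc.tendsto f₀).eventually (gt_mem_nhds (by simp))
  rw [hj, mem_comap] at h1
  obtain ⟨t, ht, hts⟩ := h1
  obtain ⟨F, e, he, hF⟩ := exists_basic_sub ht
  exact ⟨F, e, he, fun f hf => le_of_lt (hts (hF (j f) hf))⟩

theorem isDelta_of_embedding {X : Type u} {Y : Type v} [TopologicalSpace X]
    [SigmaCompactSpace X] [TopologicalSpace Y] [T35Space Y]
    (E : Set {f : Y → ℝ // Continuous f}) (hE : Dense E)
    (j : E → {φ : X → ℝ // Continuous φ}) (hj : IsEmbedding j)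
    (hX : IsDelta X) : IsDelta Y := by
  have : Nonempty {f : Y → ℝ // Continuous f} := ⟨⟨0, continuous_const⟩⟩
  obtain ⟨f₀, hf₀⟩ := hE.nonempty
  exact isDelta_of_local_embedding E hE j ⟨f₀, hf₀⟩ (hj.isInducing.nhds_eq_comap _) hX

end Pool.Agent.Work.MP_d8b5e2_gt
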