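import Pool.Agent.Work.MP_d8b5e2_gt.Core

set_option autoImplicit false

open Set Filter Topology

namespace Pool.Agent.Work.MP_d8b5e2_gt

universe u v

theorem isDelta_of_linear {X : Type u} {Y : Type v} [TopologicalSpace X]
    [SigmaCompactSpace X] [TopologicalSpace Y] [T35Space Y]
    (A : Submodule ℝ (X → ℝ)) (hA : ∀ φ ∈ A, Continuous φ) (T : A →L[ℝ] (Y → ℝ))
    (hT : ∀ φ, Continuous (T φ)) (hd : ∀ f : Y → ℝ, Continuous f → f ∈ closure (range T))
    (hX : IsDelta X) : IsDelta Y := by
  classical
  refine core IsCompact hX.compact_cover (fun (φ : A) x => φ.1 x) (fun φ y => T φ y)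
    (fun y => ?_) (fun e he => ?_)
    (fun k e _ C hC => isClosed_ctrl_of_isCompact (fun (φ : A) x => φ.1 x) (fun φ y => T φ y)
      (fun φ => hA φ.1 φ.2) hT k e C hC)
  · have hc : Continuous fun φ : A => |T φ y| := ((continuous_apply y).comp T.continuous).abs
    have h1 : {φ : A | |T φ y| < 1} ∈ 𝓝 (0 : A) :=
      (hc.tendsto 0).eventually (gt_mem_nhds (by simp))
    obtain ⟨F, e, he, hF⟩ := exists_basic_sub h1
    exact ⟨F, e, he, fun φ hφ => le_of_lt (hF φ (by simpa using hφ))⟩
  · let t : Y → Module.Dual ℝ A := fun y => (LinearMap.proj y).comp T.toLinearMap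
    let ev : X → Module.Dual ℝ A := fun x => (LinearMap.proj x).comp A.subtype
    have hind : LinearIndependent ℝ t := by
      rw [linearIndependent_iff']
      intro s c hc y hy
      obtain ⟨h, hh, hhy, hhS⟩ := exists_bump (s.erase y) (y := y) (by simp)
      have hcl : IsClosed {f : Y → ℝ | ∑ z ∈ s, c z * f z = 0} :=
        isClosed_eq (by fun_prop) continuous_const
      have hsub : range T ⊆ {f : Y → ℝ | ∑ z ∈ s, c z * f z = 0} := by
        rintro _ ⟨φ, rfl⟩
        have := congrArg (fun l : Module.Dual ℝ A => l φ) hc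
        simpa [t, LinearMap.sum_apply] using this
      have h0 : ∑ z ∈ s, c z * h z = 0 := closure_minimal hsub hcl (hd h hh)
      rw [← Finset.add_sum_erase s _ hy, Finset.sum_eq_zero
        (fun z hz => by rw [hhS z hz, mul_zero]), hhy] at h0
      linarith
    obtain ⟨π, hπ⟩ := (Finsupp.linearCombination ℝ t).exists_leftInverse_of_injective
      (LinearMap.ker_eq_bot.2 hind)
    have hπt : ∀ y, π (t y) = Finsupp.single y 1 := fun y => by
      have := congrArg (fun l => l (Finsupp.single y (1 : ℝ))) hπ
      simpa using this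
    refine ⟨fun x => (π (ev x)).support, fun F y hy => ?_⟩
    by_contra hcon
    push Not at hcon
    have hker : ⨅ x : F, LinearMap.ker (ev x) ≤ LinearMap.ker (t y) := by
      intro φ hφ
      rw [Submodule.mem_iInf] at hφ
      have hφ0 : ∀ x ∈ F, φ.1 x = 0 := fun x hx => hφ ⟨x, hx⟩
      by_contra hne
      have hne' : T φ y ≠ 0 := hne
      have := hcon ((2 / T φ y) • φ) fun x hx => by simpa [hφ0 x hx] using he
      simp only [map_smul, Pi.smul_apply, smul_eq_mul, div_mul_cancel₀ _ hne'] at this
      norm_num at this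
    have hspan := mem_span_of_iInf_ker_le_ker hker
    have hle : Submodule.span ℝ (range fun x : F => ev x) ≤
        LinearMap.ker ((Finsupp.lapply y).comp π) := by
      rw [Submodule.span_le]
      rintro _ ⟨x, rfl⟩
      simpa using hy x.1 x.2
    have := hle hspan
    simp [hπt] at this

end Pool.Agent.Work.MP_d8b5e2_gt
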