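import Pool.Agent.Work.MP_d8b5e2_gt.Embed

set_option autoImplicit false

open Set Filter Topology

namespace Pool.Agent.Work.MP_d8b5e2_gt

universe u v

/-- A cutoff vanishing on a finite set and equal to one off prescribed neighbourhoods. -/
theorem exists_cutoff {X : Type u} [TopologicalSpace X] [CompletelyRegularSpace X] (F : Finset X)
    (N : X → Set X) (hN : ∀ z, N z ∈ 𝓝 z) :
    ∃ r : X → ℝ, Continuous r ∧ (∀ z ∈ F, r z = 0) ∧ ∀ x, (∀ z ∈ F, x ∉ N z) → r x = 1 := by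
  have h : ∀ z, ∃ f : X → unitInterval, Continuous f ∧ f z = 0 ∧ EqOn f 1 (interior (N z))ᶜ :=
    fun z => CompletelyRegularSpace.completely_regular z _ isOpen_interior.isClosed_compl
      (by simpa using mem_interior_iff_mem_nhds.2 (hN z))
  choose f hf hfz hf1 using h
  refine ⟨fun x => ∏ z ∈ F, (f z x : ℝ), ?_, fun z hz => ?_, fun x hx => ?_⟩
  · exact continuous_finsetProd _ fun z _ => continuous_subtype_val.comp (hf z)
  · exact Finset.prod_eq_zero hz (by simp [hfz z])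
  · refine Finset.prod_eq_one fun z hz => ?_
    have := hf1 z (show x ∈ (interior (N z))ᶜ from fun h => hx z hz (interior_subset h))
    simp only [Pi.one_apply] at this
    simp [this]

theorem isClosed_ctrl_of_isClosed {X : Type u} {Y : Type v} [TopologicalSpace X]
    [CompletelyRegularSpace X] [TopologicalSpace Y]
    (T : {φ : X → ℝ // Continuous φ} → Y → ℝ) (hT : ∀ y, Continuous fun φ => T φ y)
    (hT' : ∀ φ, Continuous (T φ)) (φ₀ : {φ : X → ℝ // Continuous φ}) (k : ℕ) (e : ℝ) (he : 0 < e) (C : Set X)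
    (hC : IsClosed C) :
    IsClosed (Ctrl (fun (φ : {φ : X → ℝ // Continuous φ}) x => φ.1 x - φ₀.1 x)
      T k e C) := by
  classical
  rw [isClosed_iff_ultrafilter]
  intro y U hU hW
  have hch : ∀ y' : Y, y' ∈ Ctrl (fun (φ : {φ : X → ℝ // Continuous φ}) x => φ.1 x - φ₀.1 x)
      T k e C → ∃ x : Fin k → X, (∀ l, x l ∈ C) ∧
      ∀ φ : {φ : X → ℝ // Continuous φ}, (∀ l, |φ.1 (x l) - φ₀.1 (x l)| < e) →
        |T φ y'| ≤ 1 := fun y' h => h
  obtain ⟨y₀, hy₀⟩ := U.nonempty_of_mem hW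
  obtain ⟨x₀, hx₀, -⟩ := hch y₀ hy₀
  have : Nonempty (Fin k → X) := ⟨x₀⟩
  choose! x hxC hx using hch
  have hlim : ∀ l, ∃ p ∈ C, Tendsto (fun y' => x y' l) U (𝓝 p) ∨
      ∀ z, ¬ Tendsto (fun y' => x y' l) U (𝓝 z) := by
    intro l
    by_cases h : ∃ z, Tendsto (fun y' => x y' l) U (𝓝 z)
    · obtain ⟨z, hz⟩ := h
      exact ⟨z, hC.mem_of_tendsto hz (mem_of_superset hW fun y' hy' => hxC y' hy' l), Or.inl hz⟩
    · exact ⟨x₀ l, hx₀ l, Or.inr (not_exists.1 h)⟩
  choose p hpC hp using hlim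
  refine ⟨p, hpC, fun φ hφ => ?_⟩
  by_contra hcon
  have hc : Continuous fun ψ : {φ : X → ℝ // Continuous φ} => |T ψ y| := (hT y).abs
  have h1 : {ψ : {φ : X → ℝ // Continuous φ} | 1 < |T ψ y|} ∈ 𝓝 φ :=
    (hc.tendsto φ).eventually (lt_mem_nhds (not_le.1 hcon))
  obtain ⟨F, d, hd, hF⟩ := exists_basic_sub h1
  have hN : ∀ z : X, ∃ N ∈ 𝓝 z, ∀ l, (∀ z, ¬ Tendsto (fun y' => x y' l) U (𝓝 z)) →
      ∀ᶠ y' in (U : Filter Y), x y' l ∉ N := by
    intro z
    have : ∀ l, ∃ s ∈ 𝓝 z, (∀ z, ¬ Tendsto (fun y' => x y' l) U (𝓝 z)) →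
        ∀ᶠ y' in (U : Filter Y), x y' l ∉ s := by
      intro l
      by_cases h : ∀ z, ¬ Tendsto (fun y' => x y' l) U (𝓝 z)
      · have hz := h z
        rw [tendsto_def] at hz
        push Not at hz
        obtain ⟨s, hs, hs'⟩ := hz
        exact ⟨s, hs, fun _ => Ultrafilter.compl_mem_iff_notMem.2 hs'⟩
      · exact ⟨univ, univ_mem, fun h' => absurd h' h⟩
    choose s hs hs' using this
    refine ⟨⋂ l, s l, iInter_mem.2 hs, fun l hl => ?_⟩
    filter_upwards [hs' l hl] with y' hy' h using hy' (mem_iInter.1 h l)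
  choose N hNz hN using hN
  obtain ⟨r, hr, hr0, hr1⟩ := exists_cutoff (F ∪ Finset.univ.image p) N hNz
  let ψ : {φ : X → ℝ // Continuous φ} :=
    ⟨fun z => φ.1 z - r z * (φ.1 z - φ₀.1 z), φ.2.sub (hr.mul (φ.2.sub φ₀.2))⟩
  have hψ : 1 < |T ψ y| := hF ψ fun z hz => by
    simp [ψ, hr0 z (Finset.mem_union_left _ hz), hd]
  have h2 : ∀ᶠ y' in (U : Filter Y), ∀ l, |ψ.1 (x y' l) - φ₀.1 (x y' l)| < e := by
    rw [eventually_all]
    intro l
    rcases hp l with h | h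
    · refine (((ψ.2.sub φ₀.2).tendsto (p l)).comp h).abs.eventually (gt_mem_nhds ?_)
      have h0 := hr0 (p l)
        (Finset.mem_union_right _ (Finset.mem_image_of_mem p (Finset.mem_univ l)))
      simpa [ψ, h0] using hφ l
    · have : ∀ᶠ y' in (U : Filter Y), ∀ z ∈ F ∪ Finset.univ.image p, x y' l ∉ N z := by
        rw [eventually_all_finset]
        exact fun z _ => hN z l h
      filter_upwards [this] with y' hy'
      simp [ψ, hr1 _ hy', he]
  have h3 : ∀ᶠ y' in (U : Filter Y), |T ψ y'| ≤ 1 := by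
    filter_upwards [h2, hW] with y' h h' using hx y' h' ψ h
  exact absurd (le_of_tendsto (((hT' ψ).tendsto y).mono_left hU).abs h3) (not_le.2 hψ)

theorem isDelta_of_section {X : Type u} {Y : Type v} [TopologicalSpace X]
    [CompletelyRegularSpace X] [TopologicalSpace Y] [T35Space Y]
    (T : {φ : X → ℝ // Continuous φ} → {f : Y → ℝ // Continuous f}) (hT : Continuous T)
    (E : Set {f : Y → ℝ // Continuous f}) (hE : Dense E)
    (j : E → {φ : X → ℝ // Continuous φ}) (hj : Continuous j) (hTj : ∀ f, T (j f) = f.1)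
    (hX : IsDelta X) : IsDelta Y := by
  have : Nonempty {f : Y → ℝ // Continuous f} := ⟨⟨0, continuous_const⟩⟩
  obtain ⟨f₁, hf₁⟩ := hE.nonempty
  let f₀ : E := ⟨f₁, hf₁⟩
  have hTy : ∀ y, Continuous fun ψ : {φ : X → ℝ // Continuous φ} => (T ψ).1 y - f₀.1.1 y :=
    fun y => ((continuous_apply y).comp (continuous_subtype_val.comp hT)).sub continuous_const
  refine core IsClosed hX.closed_cover
    (fun (φ : {φ : X → ℝ // Continuous φ}) x => φ.1 x - (j f₀).1 x)
    (fun φ y => (T φ).1 y - f₀.1.1 y) (fun y => ?_) (fun e he => ?_)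
    (fun k e he C hC => isClosed_ctrl_of_isClosed (fun φ y => (T φ).1 y - f₀.1.1 y) hTy
      (fun φ => (T φ).2.sub f₀.1.2) (j f₀) k e he C hC)
  · have h1 : {ψ : {φ : X → ℝ // Continuous φ} | |(T ψ).1 y - f₀.1.1 y| < 1} ∈ 𝓝 (j f₀) :=
      ((hTy y).abs.tendsto (j f₀)).eventually (gt_mem_nhds (by simp [hTj]))
    obtain ⟨F, e, he, hF⟩ := exists_basic_sub h1
    exact ⟨F, e, he, fun φ hφ => le_of_lt (hF φ hφ)⟩
  · obtain ⟨S, hS⟩ := exists_supports E hE j f₀ hj.continuousAt e he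
    refine ⟨S, fun F y hy => ?_⟩
    obtain ⟨f, hf, hfy⟩ := hS F y hy
    exact ⟨j f, hf, by simpa only [hTj] using hfy⟩

end Pool.Agent.Work.MP_d8b5e2_gt
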